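import Mathlib
import Pool.Agent.Q133.WUI

set_option autoImplicit false

/-!
# A total weak unit interval graph with more than `2|V| - 3` edges (Q1, disproof)
-/

namespace Pool.Agent.Results.MP_f51a03_co.TooManyEdges

open Q133.WUI

/-- There is a total weak unit interval graph with `8` vertices and `14 = 2·8 - 2` edges. -/
theorem result :
    ∃ G : SimpleGraph (Fin 8), IsTotal G ∧ G.edgeSet.ncard = 14 ∧
      2 * Fintype.card (Fin 8) - 3 < G.edgeSet.ncard := by
  have h : G8.edgeSet.ncard = 14 := by
    rw [← card_edges, ← SimpleGraph.coe_edgeFinset, Set.ncard_coe_finset]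
  refine ⟨G8, total, h, ?_⟩
  rw [h]; simp

end Pool.Agent.Results.MP_f51a03_co.TooManyEdges
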